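import Pool.Agent.H71.CR.Stmt

/-! FRE: a mobile tuple which is not free over `C` is joined with `C` by an edge. -/

set_option autoImplicit false

open Set Pool.Agent.TK Pool.Agent.H71.VK

namespace Pool.Agent.CR

/-- a maximal part of a list with a monotone property -/
private lemma h3_max (R : List ℕ → Prop) (h0 : R []) (hR : ∀ l l' : List ℕ, l' ⊆ l → R l → R l') :
    ∀ C : List ℕ, ∃ C0 C1 : List ℕ, R C0 ∧ (∀ x, x ∈ C ↔ x ∈ C0 ∨ x ∈ C1) ∧
      (∀ x ∈ C0, x ∉ C1) ∧ C0.length + C1.length ≤ C.length ∧ ∀ a ∈ C1, ¬ R (a :: C0) := by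
  intro C
  induction C with
  | nil => exact ⟨[], [], h0, by simp, by simp, by simp, by simp⟩
  | cons a C ih =>
    obtain ⟨C0, C1, h1, h2, h3, h4, h5⟩ := ih
    by_cases h : R (a :: C0)
    · refine ⟨a :: C0, C1, h, ?_, ?_, ?_, ?_⟩
      · intro x
        rw [List.mem_cons, List.mem_cons, h2 x, or_assoc]
      · intro x hx
        rcases List.mem_cons.1 hx with rfl | hx
        · exact fun h6 => h5 x h6 h
        · exact h3 x hx
      · simp only [List.length_cons]
        omega
      · intro b hb h6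
        refine h5 b hb (hR _ _ ?_ h6)
        intro x hx
        rcases List.mem_cons.1 hx with rfl | hx
        · exact List.mem_cons_self
        · exact List.mem_cons_of_mem _ (List.mem_cons_of_mem _ hx)
    · refine ⟨C0, a :: C1, h1, ?_, ?_, ?_, ?_⟩
      · intro x
        rw [List.mem_cons, List.mem_cons, h2 x]
        tauto
      · intro x hx hx1
        rcases List.mem_cons.1 hx1 with rfl | hx1
        · refine h (hR _ _ ?_ h1)
          intro y hy
          rcases List.mem_cons.1 hy with rfl | hy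
          · exact hx
          · exact hy
        · exact h3 x hx hx1
      · simp only [List.length_cons]
        omega
      · intro b hb
        rcases List.mem_cons.1 hb with rfl | hb
        · exact h
        · exact h5 b hb

theorem pf_FRE (hFAR : T_FAR) (hTIA : T_TIA) (hTIB : T_TIB) (hMIN : T_MIN) : T_FRE := by
  intro n c Sm G π B hBs D C hlen hD hC hFr
  -- immobile tuples
  have hm0 : G.sup (([] : List ℕ) ++ B) ⊆ G.sup B := by simp
  have hmm : ∀ l l' : List ℕ, l' ⊆ l → G.sup (l ++ B) ⊆ G.sup B → G.sup (l' ++ B) ⊆ G.sup B := by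
    intro l l' h1 h2
    refine (G.mono _ _ ?_).trans h2
    intro x hx
    rcases List.mem_append.1 hx with h | h
    · exact List.mem_append_left _ (h1 h)
    · exact List.mem_append_right _ h
  obtain ⟨C0, C1, c1, c2, -, c4, c5⟩ := h3_max (fun l => G.sup (l ++ B) ⊆ G.sup B) hm0 hmm C
  have hBX : B ⊆ C0 ++ B := List.subset_append_right _ _
  have hC0 : ∀ x ∈ C0, x ∈ C := fun x hx => (c2 x).2 (Or.inl hx)
  have hC1 : ∀ x ∈ C1, x ∈ C := fun x hx => (c2 x).2 (Or.inr hx)
  -- mobility over `C0 ++ B`
  have hmC1 : G.Mb π (C0 ++ B) C1 := by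
    intro a ha
    exact ⟨hC a (hC1 a ha), fun h => c5 a ha (h.trans c1)⟩
  have hmD : G.Mb π (C0 ++ B) D := by
    intro d hd
    refine ⟨(hD d hd).1, fun h => (hD d hd).2 ((G.mono _ _ ?_).trans (h.trans c1))⟩
    intro x hx
    rcases List.mem_cons.1 hx with rfl | hx
    · exact List.mem_cons_self
    · exact List.mem_cons_of_mem _ (hBX hx)
  have happ : ∀ (X u v : List ℕ), G.Mb π X u → G.Mb π X v → G.Mb π X (u ++ v) := by
    intro X u v hu hv a ha
    rcases List.mem_append.1 ha with h | h
    · exact hu a h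
    · exact hv a h
  have hdiag : ∀ Y w : List ℕ, Pl c c (dg Y ++ w.zip w) := by
    intro Y w
    refine pl_diag fun z hz => ?_
    rcases List.mem_append.1 hz with h | h
    · exact (mem_dg.1 h).1
    · obtain ⟨i, h1, h2, rfl⟩ := zip_get h
      rfl
  have hfree : ∀ Y w : List ℕ, G.Mb π Y w → G.Fr π Y w := fun Y w hw => ⟨w, hw, rfl, hdiag Y w⟩
  have hX : ∃ X, B ⊆ X ∧ G.Mb π X (D ++ C1) := ⟨C0 ++ B, hBX, happ _ _ _ hmD hmC1⟩
  have claim : ¬ G.TI π B D C1 := by
    intro hTI
    obtain ⟨D', d1, d2, d3, d4, d5⟩ := hFAR n c Sm G π B hBs.dlB D hD C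
    have h1 : G.TI π B C1 D' := by
      refine hTIA n c Sm G π B hBs C1 D' (by omega) ⟨C0 ++ B, hBX, hmC1⟩ (hfree _ _ ?_)
      refine d5 _ (List.subset_append_right _ _) ?_
      intro x hx
      rcases List.mem_append.1 hx with h | h
      · exact List.mem_append_left _ (hC1 x h)
      · exact List.mem_append_right _ h
    obtain ⟨t1, t2, -, -⟩ := hTIB n c Sm G π B hBs
    have h2 := t1 D C1 D' C1 d1 rfl hTI (t2 _ _ h1) d2 (hdiag B C1)
    have h3 : G.Mb π (C0 ++ B) D' := by
      refine d5 _ hBX ?_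
      intro x hx
      rcases List.mem_append.1 hx with h | h
      · exact List.mem_append_left _ (hC0 x h)
      · exact List.mem_append_right _ h
    have h4 := hBs.uq (C0 ++ B) hBX (D ++ C1) (D' ++ C1) (by simp [d1])
      (happ _ _ _ hmD hmC1) (happ _ _ _ h3 hmC1) h2
    refine hFr ⟨D', ?_, d1, ?_⟩
    · exact d5 _ (List.subset_append_right _ _) (List.Subset.refl _)
    · refine h4.mono fun z hz => ?_
      rw [List.zip_append d1]
      rcases List.mem_append.1 hz with h | h
      · obtain ⟨h5, h6⟩ := mem_dg.1 h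
        rcases List.mem_append.1 h6 with h7 | h7
        · rcases (c2 _).1 h7 with h8 | h8
          · exact List.mem_append_left _ (mem_dg.2 ⟨h5, List.mem_append_left _ h8⟩)
          · refine List.mem_append_right _ (List.mem_append_right _ ?_)
            obtain ⟨i, hi, hi2⟩ := List.mem_iff_getElem.1 h8
            have h9 := get_zip hi hi
            rw [hi2] at h9
            have h10 : z = (z.1, z.1) := Prod.ext rfl h5.symm
            rw [h10]
            exact h9
        · exact List.mem_append_left _ (mem_dg.2 ⟨h5, List.mem_append_right _ h7⟩)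
      · exact List.mem_append_right _ (List.mem_append_left _ h)
  obtain ⟨e, e1, e2, e3, e4, e5, e6⟩ := hMIN n c Sm G π B hBs D C1 (by omega) hX claim
  refine ⟨e, ⟨?_, e3, e1, e2⟩, fun x hx => (e4 x hx).imp id (hC1 x), e5, ?_⟩
  · by_contra hcon
    have hst : ∀ x ∈ e, x ∈ st c π := by
      intro x hx
      rcases e4 x hx with h | h
      · exact (hD x h).1
      · exact hC x (hC1 x h)
    obtain ⟨a, ha, haB⟩ : ∃ a ∈ e, G.sup (a :: B) ⊆ G.sup B := by
      by_contra h
      push Not at h
      exact hcon fun a ha => ⟨hst a ha, h a ha⟩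
    obtain ⟨E0, E1, f1, f2, f3, f4, f5⟩ :=
      h3_max (fun l => G.sup (l ++ B) ⊆ G.sup B) hm0 hmm e
    have hE0 : E0 ≠ [] := by
      rintro rfl
      rcases (f2 a).1 ha with h | h
      · simp at h
      · exact f5 a h (by simpa using haB)
    have hE1 : E1 ≠ [] := by
      rintro rfl
      obtain ⟨x, hx, hxD⟩ := e5
      rcases (f2 x).1 hx with h | h
      · refine (hD x hxD).2 ((G.mono _ _ ?_).trans f1)
        intro y hy
        rcases List.mem_cons.1 hy with rfl | hy
        · exact List.mem_append_left _ h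
        · exact List.mem_append_right _ hy
      · simp at h
    refine e3 E0 E1 hE0 hE1 f3 f2 (hTIA n c Sm G π B hBs E0 E1 (by omega)
      ⟨C0 ++ B, hBX, ?_⟩ (hfree _ _ ?_))
    · intro x hx
      rcases e4 x ((f2 x).2 (Or.inl hx)) with h | h
      · exact hmD x h
      · exact hmC1 x h
    · intro b hb
      exact ⟨hst b ((f2 b).2 (Or.inr hb)), fun h => f5 b hb (h.trans f1)⟩
  · obtain ⟨x, hx, hx1⟩ := e6
    exact ⟨x, hx, hC1 x hx1⟩

end Pool.Agent.CR
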